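import Pool.Agent.H930R3.BK.R3

/-!
# Order and leading coefficient at `s = 1` of the L-functions of two elliptic curves, from point counts

Let `Cᵢ : y² = x³ + aᵢ x + bᵢ` (`i = 1, 2`) be elliptic curves over `ℚ`, `Fᵢ` the entire continuation of the
(incomplete) L-series of `Cᵢ`, and `Fᵢ(s) = cᵢ (s - 1) ^ mᵢ + ...` with `cᵢ ≠ 0` its expansion at
`s = 1`. Let `EPᵢ(x) = ∏_{p ≤ x} #Cᵢ(𝔽_p) / p` be the products of Birch and Swinnerton-Dyer and
`Qᵢ(x) = ∑_{√x < p ≤ x} (a_p² - 2 p) / (2 p²)` (these sums tend to `-log √2` for a curve without complex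
multiplication; they are the source of the factor `√2` in the theorem of Goldfeld). We prove
unconditionally, without any form of the Riemann hypothesis, the one-sided form of

`EP₁(x) e ^ Q₁(x) / (EP₂(x) e ^ Q₂(x)) ~ (|c₂| / |c₁|) (e ^ γ log x) ^ (m₁ - m₂)`:

the quotient `R(x)` of the left and the right side satisfies `limsup R(x) ≥ 1` (and the upper limit of the
logarithmic averages of `log R` is `≥ 0`) if every real zero `σ > 1` of `F₂` (none is known or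
expected) is a zero of `F₁` of at least the same order, and `liminf R(x) ≤ 1` (and the same for the averages)
if this holds with `F₁` and `F₂` exchanged. So if `R` or its averages converge, the limit is the one
predicted by the conjecture of Birch and Swinnerton-Dyer, as soon as this conjecture holds for the two
orders and the two leading coefficients.

If `C₂` is the quadratic twist of `C₁` by `d`, then `Q₁(x) = Q₂(x)` for all `x ≥ d²`: the square terms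
cancel, the factor `√2` disappears, and `EP₁(x) / EP₂(x)` is, up to the finitely many primes which divide
`d`, the product of `(N_p + 1) / (2 p + 1 - N_p) = (p + 1 - a_p) / (p + 1 + a_p)` over the primes
`p ≤ x` which are inert in `ℚ(√d)`.

Proof. For each curve `Fᵢ = exp (Wᵢ + (s - 1)² Dᵢ)` for `Re s > 3/2`, where `Dᵢ` is the Dirichlet series of
the logarithmic sums of `log (EPᵢ e ^ Qᵢ)` and `Wᵢ` is holomorphic for `Re s > 1` with a known
behaviour at `s = 1`, including the constants (Mertens). If the averages of `log R` were smaller than `-δ`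
for large `x`, then `F₁ = F₂ exp (W + (s - 1)² D)` with a Dirichlet series `D` with nonnegative coefficients;
by Landau's theorem the relation holds for `Re s > 1`, and `s → 1+` gives a contradiction.
Used: the exact Hasse bound and the library `Pool.Agent.H438R3.BSD` (helper438), and
`Pool.Agent.H234R4.BSD.coreR` (helper234), the quotient form of the argument with Landau's theorem.
-/

set_option autoImplicit false

open Filter Topology

namespace Pool.Agent.Results.MP_4a9ea6_nt.LeadingQuotient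

open Pool.Agent.H438R3.BSD Pool.Agent.H930R3.BK

open Classical in
/-- One-sided form, with the exact constant, of the relation between the quotient of the products of two
elliptic curves and the quotient of the leading coefficients of their L-functions. -/
theorem result (a₁ b₁ a₂ b₂ : ℤ) (_h₁ : 4 * a₁ ^ 3 + 27 * b₁ ^ 2 ≠ 0)
    (_h₂ : 4 * a₂ ^ 3 + 27 * b₂ ^ 2 ≠ 0) (F₁ F₂ : ℂ → ℂ) (hF₁ : IsL a₁ b₁ F₁) (hF₂ : IsL a₂ b₂ F₂) :
    (∃ (m₁ m₂ : ℕ) (c₁ c₂ : ℂ), analyticOrderAt F₁ 1 = m₁ ∧ analyticOrderAt F₂ 1 = m₂ ∧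
      c₁ ≠ 0 ∧ c₂ ≠ 0 ∧
      Tendsto (fun s : ℂ => F₁ s / (s - 1) ^ m₁) (𝓝[≠] 1) (𝓝 c₁) ∧
      Tendsto (fun s : ℂ => F₂ s / (s - 1) ^ m₂) (𝓝[≠] 1) (𝓝 c₂) ∧
      ((∀ σ : ℝ, 1 < σ → analyticOrderAt F₂ σ ≤ analyticOrderAt F₁ σ) → ∀ δ : ℝ, 0 < δ →
        (∃ᶠ x : ℕ in atTop, -δ < QL a₁ b₁ a₂ b₂ ((m₁ : ℤ) - m₂) (‖c₁‖ / ‖c₂‖) x) ∧
        ∃ᶠ x : ℕ in atTop, 1 - δ < QR a₁ b₁ a₂ b₂ ((m₁ : ℤ) - m₂) (‖c₁‖ / ‖c₂‖) x) ∧
      ((∀ σ : ℝ, 1 < σ → analyticOrderAt F₁ σ ≤ analyticOrderAt F₂ σ) → ∀ δ : ℝ, 0 < δ →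
        (∃ᶠ x : ℕ in atTop, QL a₁ b₁ a₂ b₂ ((m₁ : ℤ) - m₂) (‖c₁‖ / ‖c₂‖) x < δ) ∧
        ∃ᶠ x : ℕ in atTop, QR a₁ b₁ a₂ b₂ ((m₁ : ℤ) - m₂) (‖c₁‖ / ‖c₂‖) x < 1 + δ)) ∧
    ∀ d : ℤ, d ≠ 0 → a₂ = a₁ * d ^ 2 → b₂ = b₁ * d ^ 3 →
      (∀ x : ℕ, d.natAbs ^ 2 ≤ x → ∀ (k : ℤ) (c : ℝ), QR a₁ b₁ a₂ b₂ k c x =
        c * (EP a₁ b₁ x / EP a₂ b₂ x) / (Real.exp Real.eulerMascheroniConstant * Real.log x) ^ k) ∧
      ∀ x : ℕ, EP a₁ b₁ x / EP a₂ b₂ x =
        (∏ p ∈ (Finset.Icc 1 x).filter (fun p : ℕ => Good a₁ b₁ p ∧ (p : ℤ) ∣ d),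
          ((Np a₁ b₁ p : ℝ) + 1) / p) *
        ∏ p ∈ (Finset.Icc 1 x).filter (fun p : ℕ => Good a₁ b₁ p ∧ ¬ IsSquare (d : ZMod p)),
          ((Np a₁ b₁ p : ℝ) + 1) / (2 * p + 1 - Np a₁ b₁ p) := by
  refine ⟨pair_main hF₁ hF₂, ?_⟩
  rintro d hd rfl rfl
  exact ⟨fun x hx k c => QR_twist a₁ b₁ d hd k c hx, fun x => EP_twist a₁ b₁ d x⟩

end Pool.Agent.Results.MP_4a9ea6_nt.LeadingQuotient
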